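import Pool.Agent.Helper579_Lis.Circle

/-!
Connected sums of trefoils which are Lissajous knots.
-/

set_option autoImplicit false

namespace Pool.Agent.Results.MP_5a4a0c_gt.TrefoilSums

open Set Real

/-- the Lissajous curve with frequencies `nx, ny, nz` and phases `φx, φy` -/
noncomputable def lissajous (nx ny nz : ℤ) (φx φy t : ℝ) : Fin 3 → ℝ :=
  ![cos (nx * t + φx), cos (ny * t + φy), cos (nz * t)]

/-- `K` is a Lissajous knot: the image of a Lissajous curve which is injective on `[0, 2π)` -/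
def IsLissajousKnot (K : Set (Fin 3 → ℝ)) : Prop :=
  ∃ (nx ny nz : ℤ) (φx φy : ℝ), InjOn (lissajous nx ny nz φx φy) (Ico 0 (2 * π)) ∧
    K = lissajous nx ny nz φx φy '' Icc 0 (2 * π)

/-- ambient isotopy of subsets of three-space -/
def AmbientIsotopic (A B : Set (Fin 3 → ℝ)) : Prop :=
  ∃ H : unitInterval → (Fin 3 → ℝ) ≃ₜ (Fin 3 → ℝ),
    Continuous (fun q : unitInterval × (Fin 3 → ℝ) => H q.1 q.2) ∧ (∀ x, H 0 x = x) ∧ H 1 '' A = B

/-- the unknot: the unit circle of the `xz`-plane -/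
def unknot : Set (Fin 3 → ℝ) := {x | x 1 = 0 ∧ x 0 ^ 2 + x 2 ^ 2 = 1}

/-- the trefoil: the `(2,3)` torus knot in its standard parametrisation -/
def trefoil : Set (Fin 3 → ℝ) := range (fun t : ℝ =>
  ![(2 + cos (3 * t)) * cos (2 * t), (2 + cos (3 * t)) * sin (2 * t), sin (3 * t)])

/-- the mirror image of a set in the `xy`-plane -/
def mirror (K : Set (Fin 3 → ℝ)) : Set (Fin 3 → ℝ) := (fun x => ![x 0, x 1, -x 2]) '' K

/-- `K` is a connected sum of `K₁` and `K₂`: up to ambient isotopy `K` meets a horizontal plane in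
exactly two points `a, b`, and `K₁`, `K₂` are ambient isotopic to the parts of `K` below and above
the plane, each closed by the segment from `a` to `b` -/
def IsConnectedSum (K K₁ K₂ : Set (Fin 3 → ℝ)) : Prop :=
  ∃ (J : Set (Fin 3 → ℝ)) (c : ℝ) (a b : Fin 3 → ℝ), AmbientIsotopic K J ∧ a ≠ b ∧
    {x ∈ J | x 2 = c} = {a, b} ∧
    AmbientIsotopic K₁ ({x ∈ J | x 2 ≤ c} ∪ segment ℝ a b) ∧
    AmbientIsotopic K₂ ({x ∈ J | c ≤ x 2} ∪ segment ℝ a b)

/-- `K` is a connected sum of `a` copies of the trefoil and `b` copies of its mirror image -/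
inductive IsTrefoilSum : ℕ → ℕ → Set (Fin 3 → ℝ) → Prop
  | trivial (K : Set (Fin 3 → ℝ)) : AmbientIsotopic K unknot → IsTrefoilSum 0 0 K
  | left (a b : ℕ) (K J : Set (Fin 3 → ℝ)) :
      IsTrefoilSum a b J → IsConnectedSum K trefoil J → IsTrefoilSum (a + 1) b K
  | right (a b : ℕ) (K J : Set (Fin 3 → ℝ)) :
      IsTrefoilSum a b J → IsConnectedSum K (mirror trefoil) J → IsTrefoilSum a (b + 1) K

theorem of_TSum {a b : ℕ} {K : Set (Fin 3 → ℝ)} (h : Liss579.TSum a b K) : IsTrefoilSum a b K := by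
  induction h with
  | triv K e => exact IsTrefoilSum.trivial K (e.trans Liss579.square_circ)
  | left a b K J _ e ih =>
    refine IsTrefoilSum.left a b K J ih ?_
    rw [Liss579.Tset_eq] at e
    exact e
  | right a b K J _ e ih =>
    refine IsTrefoilSum.right a b K J ih ?_
    rw [Liss579.Tset_eq] at e
    exact e

/-- If `a = b`, or `a` and `b` are both even, then some Lissajous knot is a connected sum of `a`
copies of the trefoil and `b` copies of its mirror image. -/
theorem result (a b : ℕ) (h : a = b ∨ (Even a ∧ Even b)) :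
    ∃ K : Set (Fin 3 → ℝ), IsLissajousKnot K ∧ IsTrefoilSum a b K := by
  obtain ⟨K, h1, h2⟩ := Liss579.main a b h
  exact ⟨K, h1, of_TSum h2⟩

end Pool.Agent.Results.MP_5a4a0c_gt.TrefoilSums
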